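import Pool.Agent.N760.MC.Fin

/-!
# `M[1]` and `W[1]`: random oracles against generic oracles

The first part: there is an oracle `E` such that for almost all oracles `A` (all values of `A` are
independent and uniformly distributed bits) the following holds relative to `A` and `E`: every
parameterized problem in `W[1]` is fixed-parameter tractable, in particular it is in `M[1]` (the
inclusion `M[1] ⊆ W[1]`, classical without oracles, is not considered here); but
for all `t ≥ 1` the model-checking problem for `Σ_{t+1,1}`-sentences is in `W[t+1]` and not in
`A[t]`, even if the functions of the parameter in the definition of `A[t]` are not computable.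

The second part: for every oracle `E`, in particular for the one of the first part, and all oracles
`A` outside a set of the first category, the model-checking problem for existential sentences, with
the number of variables plus the length of the atoms as the parameter, which is in `W[1]` relative
to `A` and `E`, is not in `M[1]`, even in a wide nonuniform form: there is no polynomial-time
algorithm which, after an arbitrary precomputation on the parameter `k`, maps the instances of
length `n` to instances of length `(h k * log n) ^ c` of a problem in `NP` relative to `A` and `E`.
And all levels of the `W`-hierarchy are different, starting with `W[1] ≠ FPT`.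

So for the same `E` the answer to the question is different for random and for generic oracles.

The classes are defined in `Pool/Agent/Y626/WG/Defs.lean` (`W[t]`, `A[t]`),
`Pool/Agent/Y626/WC/Defs.lean` (`FPT`), `Pool/Agent/Y626/WX/Defs.lean` (`M[1]`) and
`Pool/Agent/Y581/WN/Mini.lean` (`InM1n`, the nonuniform form). Without oracles, `W[t]` is the closure
under fpt-reductions of the model-checking problem for `Σ_{t,1}`-sentences on structures with binary
relations. Relative to an oracle, the reductions may ask the oracle, the elements of the structures
are labelled with bit strings, and the sentences may contain atoms which say that the concatenation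
of the labels of some variables is in the oracle.
-/

set_option autoImplicit false

namespace Pool.Agent.Results.MP_ddf912_lc.RandomGenericOracles

open MeasureTheory
open Pool.Agent.NPC Pool.Agent.H620R2.Gauge Pool.Agent.TH678.GC Pool.Agent.Y626.WG
open Pool.Agent.Y626.WC (InFPT)
open Pool.Agent.Y626.WX (InM1)
open Pool.Agent.Y581.WN (InM1n)
open Pool.Agent.H628R3.RO (randomOracle prob)

theorem result :
    (∃ E : Oracle, ∀ᵐ A ∂randomOracle,
      (∀ (α : Type) [TEnc α] (κ : α → ℕ) (P : α → Prop),
        (InW 1 (join A E) κ P ↔ InFPT (join A E) κ P) ∧
        (InW 1 (join A E) κ P → InM1 (join A E) κ P)) ∧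
      ∀ t : ℕ, 1 ≤ t →
        (∀ (α : Type) [TEnc α] (κ : α → ℕ) (P : α → Prop), InW t (join A E) κ P →
          InW (t + 1) (join A E) κ P ∧ InA t (join A E) κ P) ∧
        InW (t + 1) (join A E) (fun I : WInst (t + 1) => I.1.param)
          (fun I => I.1.Sat (join A E)) ∧
        ¬ InA t (join A E) (fun I : WInst (t + 1) => I.1.param)
          (fun I => I.1.Sat (join A E))) ∧
    ∀ E : Oracle, ∀ᶠ A in residual Oracle,
      (InW 1 (join A E) (fun I : WInst 1 => I.1.param) (fun I => I.1.Sat (join A E)) ∧
        ¬ InM1n (join A E) (fun I : WInst 1 => I.1.param) (fun I => I.1.Sat (join A E))) ∧
      ∀ t : ℕ,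
        (∀ (α : Type) [TEnc α] (κ : α → ℕ) (P : α → Prop), InW t (join A E) κ P →
          InW (t + 1) (join A E) κ P ∧ InA t (join A E) κ P) ∧
        InW (t + 1) (join A E) (fun I : WInst (t + 1) => I.1.param)
          (fun I => I.1.Sat (join A E)) ∧
        ¬ InA t (join A E) (fun I : WInst (t + 1) => I.1.param)
          (fun I => I.1.Sat (join A E)) :=
  Pool.Agent.N760.MC.final

end Pool.Agent.Results.MP_ddf912_lc.RandomGenericOracles
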